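import Pool.Agent.L0h56.HS.Stm

/-!
# Module SNG of board HS
-/

set_option autoImplicit false

namespace Pool.Agent.L0h28.HS

open Pool.Agent.L0h56.HS

theorem t_SNG (hHUA : S_HUA) (hFLD : S_FLD) : S_SNG := by
  intro G _ _ hsq Γ hcomm htr V hsymm hrefl hinv a b c hb hba hcb
  by_cases ha : a = 1
  · subst ha
    exact hsymm c 1 (V c).one_mem
  have hcard : 2 ≤ Nat.card G := by
    have : Nontrivial G := ⟨b, 1, hb⟩
    exact Finite.one_lt_card
  obtain ⟨F, _, _, _, e, hbij, he1, headd, hscale, hscale'⟩ := hFLD G hsq hcard Γ hcomm htr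
  have he0 : ∀ g, g ≠ 1 → e g ≠ 0 := fun g hg h => hg (hbij.1 (h.trans he1.symm))
  obtain ⟨u1, hu1⟩ := hbij.2 1
  let U : AddSubgroup F :=
    { carrier := {x | ∃ g, e g = x ∧ g ∈ V u1}
      add_mem' := by
        rintro x y ⟨g, rfl, hg⟩ ⟨h, rfl, hh⟩
        exact ⟨g * h, headd g h, (V u1).mul_mem hg hh⟩
      zero_mem' := ⟨1, he1, (V u1).one_mem⟩
      neg_mem' := by
        rintro x ⟨g, rfl, hg⟩
        refine ⟨g, ?_, hg⟩
        have h := headd g g
        rw [hsq, he1] at h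
        exact eq_neg_of_add_eq_zero_left h.symm }
  have claim1 : ∀ a b, a ≠ 1 → b ∈ V a → e b * (e a)⁻¹ ∈ U := by
    intro a b ha hb
    obtain ⟨α, hα, hα'⟩ := hscale' (e a)⁻¹ (inv_ne_zero (he0 a ha))
    have h1 : α a = u1 := hbij.1 (by rw [hα', inv_mul_cancel₀ (he0 a ha), hu1])
    refine ⟨α b, by rw [hα', mul_comm], ?_⟩
    rw [← h1]
    exact hinv α hα a b hb
  have claim2 : ∀ a b, a ≠ 1 → e b * (e a)⁻¹ ∈ U → b ∈ V a := by
    rintro a b ha ⟨g, hg, hgV⟩
    obtain ⟨α, hα, hα'⟩ := hscale' (e a) (he0 a ha)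
    have h1 : α u1 = a := hbij.1 (by rw [hα', hu1, mul_one])
    have h2 : α g = b := hbij.1 (by
      rw [hα', hg]
      have := he0 a ha
      field_simp)
    have h3 := hinv α hα u1 g hgV
    rwa [h1, h2] at h3
  have hone : (1 : F) ∈ U := ⟨u1, hu1, hrefl u1⟩
  have hinvU : ∀ x ∈ U, x⁻¹ ∈ U := by
    rintro x ⟨g, rfl, hg⟩
    by_cases h0 : g = 1
    · rw [h0, he1, inv_zero]
      exact U.zero_mem
    · have h := claim1 g u1 h0 (hsymm _ _ hg)
      rwa [hu1, one_mul] at h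
  have hmul := hHUA F U hone hinvU
  refine claim2 a c ha ?_
  have h1 := claim1 a b ha hba
  have h2 := claim1 b c hb hcb
  have h3 := hmul _ h2 _ h1
  have h4 : e c * (e b)⁻¹ * (e b * (e a)⁻¹) = e c * (e a)⁻¹ := by
    have := he0 b hb
    field_simp
  rwa [h4] at h3

end Pool.Agent.L0h28.HS
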